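import Pool.Agent.Helper20.KP.StHB

/-!
# Project KP, chapter H: small assemblies
-/

set_option autoImplicit false

namespace Pool.Agent.Helper20.KP

open MeasureTheory Filter Pool.Agent.Helper52.KP Pool.Agent.Helper67.NO
open scoped Topology

universe u

theorem hHFX (h1 : StHED) (h2 : StHDS) (h3 : StHFI) : StHFX := by
  intro D hD
  obtain ⟨Y, hY⟩ := h1 D hD
  obtain ⟨Dc, hDc, hc⟩ := h2 D hD Y hY
  obtain ⟨rd, hrd⟩ := h3 D hD Y Dc hY hDc hc
  exact ⟨Y, Dc, rd, hrd⟩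

theorem hHGO (h1 : StHB1.{u}) (h2 : StHB2.{u}) (h3 : StHB3.{u}) (h4 : StHB4.{u})
    (h6 : StHB6.{u}) (h7 : StHB7.{u}) : StHGO.{u} := by
  intro g _ _ _ _ x₀ hx hn C
  obtain ⟨-, -, -, -, a1, a2, a3, a4, a5, a6, a7⟩ := h1 g x₀ hx hn C _ rfl
  obtain ⟨b1, b2⟩ := h2 g x₀ hx hn C
  obtain ⟨c1, c2⟩ := h3 g x₀ hx hn C _ rfl
  obtain ⟨d1, d2⟩ := h7 g x₀ hx hn C _ rfl
  exact
    { hm := a1
      zero := a2
      cone := a3
      charts := by
        rintro x ⟨y, hy, rfl⟩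
        obtain ⟨X, hX⟩ := b1 y hy
        exact ⟨_, b2 y hy X hX⟩
      bdry := c1
      Δ0 := a4
      J0 := a5
      phO := a6
      imm := a7
      dense := h4 g x₀ hx hn C
      Qb := c2
      ram := h6 g x₀ hx hn C _ rfl
      idp := d1
      tr := d2 }

end Pool.Agent.Helper20.KP
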