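import Pool.Agent.Helper52.KP.DefsG

/-!
# Project KP (MP_26be5b_ag), chapter H: definitions

Everything is in coordinates: the orbit is a subset `O` of `ℂ^N`, a locally closed complex
submanifold of dimension `m`.
-/

set_option autoImplicit false

namespace Pool.Agent.Helper20.KP

open MeasureTheory Filter Pool.Agent.Helper52.KP
open scoped Topology

/-- functions which are holomorphic on `O` (the values off `O` are irrelevant) -/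
def HolO {N : ℕ} (O : Set (Fin N → ℂ)) (F : (Fin N → ℂ) → ℂ) : Prop :=
  ∀ (p : ℕ) (Ω : Set (Fin p → ℂ)) (γ : (Fin p → ℂ) → (Fin N → ℂ)), IsOpen Ω →
    DifferentiableOn ℂ γ Ω → Set.MapsTo γ Ω O → DifferentiableOn ℂ (fun z => F (γ z)) Ω

/-- homogeneous of degree `k` on `O` -/
def HomO {N : ℕ} (O : Set (Fin N → ℂ)) (k : ℕ) (F : (Fin N → ℂ) → ℂ) : Prop :=
  ∀ x ∈ O, ∀ c : ℂ, c ≠ 0 → F (c • x) = c ^ k * F x

/-- orbit data: the orbit `O ⊆ ℂ^N`, of dimension `m`, with a polynomial chart `Φ` defined on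
`{Δ ≠ 0} ⊆ ℂ^m` -/
structure OD where
  N : ℕ
  m : ℕ
  O : Set (Fin N → ℂ)
  Φ : Fin N → MvPolynomial (Fin m) ℂ
  Δ : MvPolynomial (Fin m) ℂ
  J : MvPolynomial (Fin m) ℂ
  nq : ℕ
  Q : Fin nq → MvPolynomial (Fin N) ℂ

/-- linear maps from `ℂ^N` to `ℂ^m` -/
abbrev OD.LM (D : OD) : Type := (Fin D.N → ℂ) →ₗ[ℂ] (Fin D.m → ℂ)

/-- the domain of the chart -/
def OD.U (D : OD) : Set (Fin D.m → ℂ) := {z | ev D.Δ z ≠ 0}

/-- the chart -/
noncomputable def OD.ph (D : OD) (z : Fin D.m → ℂ) : Fin D.N → ℂ := fun i => ev (D.Φ i) z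

/-- a linear map `Y` in the chart, as polynomials -/
noncomputable def OD.yp (D : OD) (Y : D.LM) : Fin D.m → MvPolynomial (Fin D.m) ℂ :=
  fun i => ∑ j, MvPolynomial.C (Y (Pi.single j 1) i) * D.Φ j

/-- `c` is a chart of `O` at `x` -/
structure OD.Cht (D : OD) (x : Fin D.N → ℂ) (c : (Fin D.m → ℂ) → (Fin D.N → ℂ)) : Prop where
  dif : Differentiable ℂ c
  zero : c 0 = x
  mem : ∀ s, c s ∈ D.O
  inj : Function.Injective (fderiv ℂ c 0)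
  cov : ∀ ε : ℝ, 0 < ε → ∃ δ : ℝ, 0 < δ ∧ ∀ x' ∈ D.O, ‖x' - x‖ < δ → ∃ s, ‖s‖ < ε ∧ x' = c s

/-- the facts about the orbit which are used in chapter H -/
structure GoodO (D : OD) : Prop where
  hm : 2 ≤ D.m
  zero : (0 : Fin D.N → ℂ) ∉ D.O
  cone : ∀ x ∈ D.O, ∀ c : ℂ, c ≠ 0 → c • x ∈ D.O
  charts : ∀ x ∈ D.O, ∃ c, D.Cht x c
  /-- the boundary has codimension at least two -/
  bdry : ∃ b : ℕ → (Fin (D.m - 2) → ℂ) → (Fin D.N → ℂ), (∀ i, Differentiable ℂ (b i)) ∧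
    closure D.O \ D.O ⊆ ⋃ i, Set.range (b i)
  Δ0 : D.Δ ≠ 0
  J0 : ∀ z ∈ D.U, ev D.J z ≠ 0
  phO : ∀ z ∈ D.U, D.ph z ∈ D.O
  imm : ∀ z ∈ D.U, Function.Injective (fderiv ℂ D.ph z)
  /-- the image of the chart `Φ` is dense -/
  dense : D.O ⊆ closure (D.ph '' D.U)
  /-- the boundary is given by equations -/
  Qb : ∀ x ∈ closure D.O, (x ∈ D.O ↔ ∃ i, MvPolynomial.eval x (D.Q i) ≠ 0)
  /-- the Jacobian of a linear map is holomorphic on `O` -/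
  ram : ∀ Y : D.LM, ∃ S, HolO D.O S ∧ (∀ z ∈ D.U, S (D.ph z) * ev D.J z = ev (jac (D.yp Y)) z) ∧
    ∀ x ∈ D.O, S x ≠ 0 → ∀ c, D.Cht x c → Function.Injective (fun ξ => Y (fderiv ℂ c 0 ξ))
  /-- identity principle (`O` is connected) -/
  idp : ∀ F, HolO D.O F → HomO D.O 0 F → ∀ c : ℂ, ∀ V : Set (Fin D.N → ℂ), IsOpen V →
    (V ∩ D.O).Nonempty → (∀ x ∈ V ∩ D.O, F x = c) → ∀ x ∈ D.O, F x = c
  /-- homogeneity under a group of linear maps -/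
  tr : ∀ x ∈ D.O, ∀ y ∈ D.O, ∃ A : (Fin D.N → ℂ) ≃ₗ[ℂ] (Fin D.N → ℂ), A x = y ∧
    ∀ z, A z ∈ D.O ↔ z ∈ D.O

/-- the fibre of `Y` -/
def OD.fb (D : OD) (Y : D.LM) (y : Fin D.m → ℂ) : Set (Fin D.N → ℂ) := {x | x ∈ D.O ∧ Y x = y}

/-- coefficients of the polynomial `∏ (T - F x)` over the points `x` of the fibre -/
noncomputable def OD.co (D : OD) (Y : D.LM) (F : (Fin D.N → ℂ) → ℂ) (i : ℕ)
    (y : Fin D.m → ℂ) : ℂ :=
  (∏ᶠ x ∈ D.fb Y y, (Polynomial.X - Polynomial.C (F x))).coeff i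

/-- sum of the values of `F` over the fibre -/
noncomputable def OD.tc (D : OD) (Y : D.LM) (F : (Fin D.N → ℂ) → ℂ) (y : Fin D.m → ℂ) : ℂ :=
  ∑ᶠ x ∈ D.fb Y y, F x

/-- `Y` is a good finite projection of the closure of `O` to `ℂ^m` -/
structure PJ (D : OD) (Y : D.LM) : Prop where
  bd : ∃ a : ℝ, 0 < a ∧ ∀ x ∈ closure D.O, a * ‖x‖ ≤ ‖Y x‖
  rk : ∃ z ∈ D.U, Function.Injective (fun ξ => Y (fderiv ℂ D.ph z ξ))
  /-- the coordinate directions are not in the image of the boundary -/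
  dir : ∀ j, ∀ x ∈ closure D.O, x ∉ D.O → Y x ≠ Pi.single j 1
  /-- almost every line in a coordinate direction avoids the image of the boundary -/
  lin : ∀ j, ∀ᵐ y : Fin D.m → ℂ, ∀ t : ℂ, ∀ x ∈ closure D.O, x ∉ D.O →
    Y x ≠ y + t • Pi.single j 1

/-- over `{Dc ≠ 0}` the projection `Y` is a covering of degree `rd` -/
structure FB (D : OD) (Y : D.LM) (Dc : MvPolynomial (Fin D.m) ℂ) (rd : ℕ) : Prop where
  pj : PJ D Y
  D0 : Dc ≠ 0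
  pos : 0 < rd
  cov : ∀ x ∈ closure D.O, ev Dc (Y x) ≠ 0 → x ∈ D.O
  loc : ∀ y₀, ev Dc y₀ ≠ 0 → ∃ ρ : ℝ, 0 < ρ ∧
    ∃ ζ : Fin rd → (Fin D.m → ℂ) → (Fin D.N → ℂ),
      Metric.ball y₀ ρ ⊆ {y | ev Dc y ≠ 0} ∧
      (∀ i, DifferentiableOn ℂ (ζ i) (Metric.ball y₀ ρ)) ∧
      ∀ y ∈ Metric.ball y₀ ρ, Function.Injective (fun i => ζ i y) ∧
        D.fb Y y = Set.range fun i => ζ i y
  /-- points over `{Dc' ≠ 0}` are dense in `O`, for every `Dc' ≠ 0` -/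
  dns : ∀ Dc' : MvPolynomial (Fin D.m) ℂ, Dc' ≠ 0 → D.O ⊆ closure {x | x ∈ D.O ∧ ev Dc' (Y x) ≠ 0}

/-- the functions on `O` which are holomorphic and homogeneous of degree `k` -/
def OD.HK (D : OD) (k : ℕ) : Submodule ℂ (D.O → ℂ) where
  carrier := {f | ∃ F, HolO D.O F ∧ HomO D.O k F ∧ ∀ x : D.O, f x = F x}
  add_mem' := by
    rintro f f' ⟨F, h1, h2, h3⟩ ⟨F', h1', h2', h3'⟩
    refine ⟨fun x => F x + F' x, fun p Ω γ h h' h'' => (h1 p Ω γ h h' h'').add (h1' p Ω γ h h' h''),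
      fun x hx c hc => ?_, fun x => by simp [h3, h3']⟩
    simp only [h2 x hx c hc, h2' x hx c hc]; ring
  zero_mem' := ⟨fun _ => 0, fun p Ω γ _ _ _ => differentiableOn_const 0,
    fun x _ c _ => by simp, fun x => rfl⟩
  smul_mem' := by
    rintro a f ⟨F, h1, h2, h3⟩
    refine ⟨fun x => a * F x, fun p Ω γ h h' h'' => (h1 p Ω γ h h' h'').const_mul a,
      fun x hx c hc => ?_, fun x => by simp [h3]⟩
    simp only [h2 x hx c hc]; ring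

end Pool.Agent.Helper20.KP
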