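import Pool.Agent.Helper20.KP.Asm
import Pool.Agent.Helper14.KP.M_HBL
import Pool.Agent.Helper14.KP.M_ORB
import Pool.Agent.Helper16.KP.M_HNI
import Pool.Agent.Helper16.KP.M_NUL
import Pool.Agent.Helper19.KP.M_HRG
import Pool.Agent.Helper26.KP.M_HLG
import Pool.Agent.Helper28.KP.M_HBD
import Pool.Agent.Helper29.KP.M_HDN
import Pool.Agent.Helper30.KP.M_HCS
import Pool.Agent.Helper30.KP.M_HB4
import Pool.Agent.Helper33.KP.M_HHP
import Pool.Agent.Helper34.KP.M_HED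
import Pool.Agent.Helper37.KP.M_HSE
import Pool.Agent.Helper42.KP.M_HOC
import Pool.Agent.Helper45.KP.M_HCO
import Pool.Agent.Helper47.KP.M_HB9
import Pool.Agent.Helper6.KP.M_HB1
import Pool.Agent.Helper6.KP.M_HEX
import Pool.Agent.Helper60.KP.M_HSP
import Pool.Agent.Helper7.KP.M_HB2
import Pool.Agent.Helper76.KP.M_HDM
import Pool.Agent.Helper80.KP.M_HCN
import Pool.Agent.Helper81.KP.M_HPL
import Pool.Agent.Helper84.KP.M_HAL
import Pool.Agent.Helper87.KP.M_HLN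
import Pool.Agent.Helper89.KP.M_HB3
import Pool.Agent.Helper9.KP.M_HEN
import Pool.Agent.Helper97.KP.M_HFI
import Pool.Agent.Helper99.KP.M_HCV
import Pool.Agent.Helper22.KP.M_NEA
import Pool.Agent.Helper8.KP.M_BDY
import Pool.Agent.Helper57.KP.M_CNX
import Pool.Agent.Helper26.KP.M_HLC
import Pool.Agent.Helper72.KP.M_JCO
import Pool.Agent.Helper95.KP.M_TRN
import Pool.Agent.Helper84.KP.M_LFT
import Pool.Agent.Helper8.KP.M_CLO
import Pool.Agent.Helper11.KP.M_EXT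
import Pool.Agent.Helper31.KP.M_TAN
import Pool.Agent.Helper97.KP.M_EXL
import Pool.Agent.Helper21.KP.M_EVN
import Pool.Agent.Helper53.KP.M_COV
import Pool.Agent.Helper51.KP.M_SLI
import Pool.Agent.Helper42.KP.M_PRD
import Pool.Agent.Helper16.KP.M_DEC
import Pool.Agent.Helper34.KP.M_RS1
import Pool.Agent.Helper40.KP.M_HDS
import Pool.Agent.Helper40.KP.M_HB5
import Pool.Agent.Helper27.KP.M_HB6
import Pool.Agent.Helper72.KP.M_HB7
import Pool.Agent.Helper8.KP.M_HB8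

/-!
# Project KP (MP_26be5b_ag), chapter H: assembly of `StHDX`
-/

set_option autoImplicit false

namespace Pool.Agent.Helper20.KP

open Pool.Agent.Helper52.KP

universe u

theorem hHOC' : StHOC := Pool.Agent.Helper42.KP.hHOC
theorem hHCO' : StHCO := Pool.Agent.Helper45.KP.hHCO
theorem hHBL' : StHBL := Pool.Agent.Helper14.KP.hHBL hHOC'
theorem hHLN' : StHLN :=
  Pool.Agent.Helper87.KP.hHLN hHCO' hHBL' Pool.Agent.Helper9.KP.hHEN Pool.Agent.Helper16.KP.hNUL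
theorem hHPL' : StHPL :=
  Pool.Agent.Helper81.KP.hHPL hHCO' hHLN' Pool.Agent.Helper37.KP.hHSE Pool.Agent.Helper16.KP.hNUL
theorem hHSP' : StHSP := Pool.Agent.Helper60.KP.hHSP hHPL' hHCO' hHOC'
theorem hHLG' : StHLG := Pool.Agent.Helper26.KP.hHLG hHSP' hHOC'
theorem hHDN' : StHDN := Pool.Agent.Helper29.KP.hHDN Pool.Agent.Helper84.KP.hHAL
theorem hHED' : StHED :=
  Pool.Agent.Helper34.KP.hHED
    (Pool.Agent.Helper6.KP.hHEX Pool.Agent.Helper16.KP.hHNI Pool.Agent.Helper99.KP.hHCV)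
    Pool.Agent.Helper16.KP.hHNI
theorem hHFI' : StHFI := Pool.Agent.Helper97.KP.hHFI Pool.Agent.Helper80.KP.hHCN hHDN'
theorem hHDS' : StHDS := Pool.Agent.Helper40.KP.HDS.hHDS Pool.Agent.Helper84.KP.hHAL hHOC' hHDN'
theorem hHFX' : StHFX := hHFX hHED' hHDS' hHFI'
theorem hHBD' : StHBD :=
  Pool.Agent.Helper28.KP.hHBD hHFX' hHPL' hHCO' hHOC'
theorem hHCS' : StHCS :=
  Pool.Agent.Helper30.KP.hHCS hHFX' hHPL' hHCO' hHOC'
theorem hHRG' : StHRG :=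
  Pool.Agent.Helper19.KP.hHRG hHFX' hHSP' hHLG' hHOC'
theorem hHDM' : StHDM := Pool.Agent.Helper76.KP.hHDM hHSP' Pool.Agent.Helper33.KP.hHHP hHOC'

theorem hORB' : StORB.{u} := Pool.Agent.Helper14.KP.hORB
theorem hDEC' : StDEC.{u} := Pool.Agent.Helper16.KP.hDEC
theorem hNEA' (hJM : StJM.{u}) : StNEA.{u} :=
  Pool.Agent.Helper22.KP.hNEA hJM hORB' (Pool.Agent.Helper51.KP.hSLI hJM hDEC')
    (Pool.Agent.Helper42.KP.hPRD hORB' hDEC')
theorem hLFT' (hJM : StJM.{u}) : StLFT.{u} := Pool.Agent.Helper84.KP.hLFT (hNEA' hJM) hORB'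
theorem hHLC' (hJM : StJM.{u}) : StHLC.{u} := Pool.Agent.Helper26.KP.hHLC (hLFT' hJM) hORB'
theorem hCNX' (hJM : StJM.{u}) : StCNX.{u} := Pool.Agent.Helper57.KP.hCNX hORB' (hNEA' hJM)
theorem hTAN' (hJM : StJM.{u}) : StTAN.{u} := Pool.Agent.Helper31.KP.hTAN (hLFT' hJM) hORB'
theorem hTRN' (hJM : StJM.{u}) : StTRN.{u} :=
  Pool.Agent.Helper95.KP.hTRN (hNEA' hJM) hORB' (hCNX' hJM) (hHLC' hJM) (hTAN' hJM)
theorem hCLO' (hJM : StJM.{u}) : StCLO.{u} := Pool.Agent.Helper8.KP.hCLO (hNEA' hJM) hORB'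
theorem hEXT' : StEXT := Pool.Agent.Helper11.KP.hEXT Pool.Agent.Helper34.KP.hRS1
theorem hEXL' (hJM : StJM.{u}) : StEXL.{u} :=
  Pool.Agent.Helper97.KP.hEXL hEXT' (hTRN' hJM) (hLFT' hJM) hORB' (hCLO' hJM)
theorem hJCO' (hJM : StJM.{u}) : StJCO.{u} :=
  Pool.Agent.Helper72.KP.hJCO (hEXL' hJM) (hTRN' hJM) (hCLO' hJM) (hHLC' hJM) hORB'
theorem hBDY' (hJM : StJM.{u}) : StBDY.{u} :=
  Pool.Agent.Helper8.KP.hBDY (Pool.Agent.Helper53.KP.hCOV (hNEA' hJM) hORB')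
    Pool.Agent.Helper21.KP.hEVN (hCLO' hJM) hORB'

theorem hHB1' : StHB1.{u} := Pool.Agent.Helper6.KP.hHB1 hORB'
theorem hHB2' (hJM : StJM.{u}) : StHB2.{u} := Pool.Agent.Helper7.KP.hHB2 hORB' (hNEA' hJM)
theorem hHB3' (hJM : StJM.{u}) : StHB3.{u} := Pool.Agent.Helper89.KP.hHB3 (hBDY' hJM) hHB1'
theorem hHB4' (hJM : StJM.{u}) : StHB4.{u} :=
  Pool.Agent.Helper30.KP.hHB4 (hCNX' hJM) hHB1' (hHB2' hJM)
theorem hHB5' (hJM : StJM.{u}) : StHB5.{u} := Pool.Agent.Helper40.KP.HB5.hHB5 (hHLC' hJM) hORB'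
theorem hHB6' (hJM : StJM.{u}) : StHB6.{u} :=
  Pool.Agent.Helper27.KP.hHB6 (hJCO' hJM) (hTRN' hJM) (hLFT' hJM) hORB' hHB1' (hHB2' hJM)
    (hHB5' hJM)
theorem hHB7' (hJM : StJM.{u}) : StHB7.{u} :=
  Pool.Agent.Helper72.KP.hHB7 (hCNX' hJM) hORB' (hHB2' hJM) (hHB5' hJM)
theorem hHGO' (hJM : StJM.{u}) : StHGO.{u} :=
  hHGO hHB1' (hHB2' hJM) (hHB3' hJM) (hHB4' hJM) (hHB6' hJM) (hHB7' hJM)
theorem hHB8' (hJM : StJM.{u}) : StHB8.{u} :=
  Pool.Agent.Helper8.KP.hHB8 (hHGO' hJM) hHRG' (hHB5' hJM) hORB'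

/-- Chapter H: the statement `StHDX` from the theorem of Jacobson and Morozov. -/
theorem hHDX (hJM : StJM.{u}) : StHDX.{u} :=
  Pool.Agent.Helper47.KP.hHB9 (hHGO' hJM) hHFX' hHBD' hHCS' hHCO' hHDM' (hHB5' hJM) (hHB8' hJM)
    Pool.Agent.Helper16.KP.hNUL

end Pool.Agent.Helper20.KP
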