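import Pool.Agent.Helper20.KP.HDefs
import Pool.Agent.Helper52.KP.StW

/-!
# Project KP (MP_26be5b_ag), chapter H: holomorphic functions on the orbit (coordinates)

For every statement `StXX` prove `theorem hXX : StXX` in `Pool/Agent/<You>/KP/M_XX.lean`; statements
named in the docstring may be taken as hypotheses (`theorem hXX (h1 : StYY) : StXX`).
`Fin N → ℂ` carries the sup norm.
-/

set_option autoImplicit false

namespace Pool.Agent.Helper20.KP

open MeasureTheory Filter Pool.Agent.Helper52.KP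
open scoped Topology

/-- MODULE HNI (images of lower-dimensional spaces are null sets).
PROOF.  Let `F : (Fin p → ℂ) → (Fin p → ℂ)`, `F x = f (fun i : Fin q => x (Fin.castLE _ i))`.  It is
differentiable (over `ℂ`, so over `ℝ`: `Differentiable.restrictScalars`), and `range f = F '' S`,
`S = {x | x (last) = 0}`, a null set (a proper subspace: `Measure.addHaar_submodule`, or
`MeasureTheory.Measure.addHaar_affineSubspace`).  Use
`MeasureTheory.addHaar_image_eq_zero_of_differentiableOn_of_addHaar_eq_zero`. -/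
def StHNI : Prop := ∀ (q p : ℕ), q < p → ∀ f : (Fin q → ℂ) → (Fin p → ℂ), Differentiable ℂ f →
  volume (Set.range f) = 0

/-- MODULE HCV (countable cover by images of `ℂ^m`).
PROOF.  For `x ∈ O` take a chart `c_x` (`charts`) and `δ_x` for `ε = 1`: `ball x δ_x ∩ O ⊆ range c_x`.
`ℂ^N` is second countable, so countably many of these balls cover `O`
(`TopologicalSpace.countable_cover_nhdsWithin` or `TopologicalSpace.isOpen_iUnion_countable`).  The
boundary: `bdry`, composed with the projection `(Fin m → ℂ) → (Fin (m - 2) → ℂ)` to the first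
coordinates.  Enumerate the two countable families (if `O` is empty use constant maps). -/
def StHCV : Prop := ∀ D : OD, GoodO D → ∃ b : ℕ → (Fin D.m → ℂ) → (Fin D.N → ℂ),
  (∀ i, Differentiable ℂ (b i)) ∧ closure D.O ⊆ ⋃ i, Set.range (b i)

/-- MODULE HEX (existence of a finite projection).  Inputs: `StHNI`, `StHCV`.
PROOF.  `U` is not empty (`Δ ≠ 0`, `MvPolynomial.funext`); fix `z ∈ U`, `T = range (fderiv ph z)`.  The closure
`K` of `O` is stable under multiplication by `c ≠ 0`.  Claim: for every `p` with `m ≤ p ≤ N` there is a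
linear `L : ℂ^N → ℂ^p` with `x ∈ K, L x = 0 → x = 0` and `L ∘ fderiv ph z` injective.  `p = N`: identity
(`m ≤ N` because `fderiv ph z` is injective).  From `p + 1` to `p` (`m ≤ p`): the set `L '' K` is covered by
the ranges of `L ∘ b_i`, so it is a null set of `ℂ^(p+1)` (`StHNI`, `m < p + 1`), and so is
`L '' T = range (L ∘ fderiv ph z)`.  So there is `v` in neither, `v ≠ 0` (as `0 ∈ L '' T`).  Let
`π : ℂ^(p+1) → ℂ^p` be linear, onto, with kernel `ℂ v` (e.g. choose `i` with `v i ≠ 0` and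
`π u = (u_j - u_i v_j / v_i)_{j ≠ i}`), `L' = π ∘ L`.  If `x ∈ K`, `L' x = 0` then `L x = c v`; if `c ≠ 0` then
`v = L (x / c) ∈ L '' K`, contradiction; so `L x = 0`, `x = 0`.  The same for `T` (a subspace). -/
def StHEX : Prop := ∀ D : OD, GoodO D → ∃ L : D.LM, (∀ x ∈ closure D.O, L x = 0 → x = 0) ∧
  ∃ z ∈ D.U, Function.Injective (fun ξ => L (fderiv ℂ D.ph z ξ))

/-- MODULE HED (good coordinates).  Inputs: `StHEX`, `StHNI`.
PROOF.  `L` from `StHEX`, `b_i` from `bdry`, `S = L '' (closure O \ O)`, covered by the ranges of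
`L ∘ b_i : ℂ^(m-2) → ℂ^m`: a null set.  Choose a basis `v_1, ..., v_m` of `ℂ^m` with `v_j ∉ S` (step by step:
`S` together with the span of the previous vectors is a null set).  Let `A` be the linear automorphism
with `A v_j = Pi.single j 1`, `Y = A ∘ L`.  `dir`: clear.  `rk`: clear.  `bd`: `closure O ∩ sphere` is
compact and `‖Y x‖ > 0` on it (`Y x = 0 → x = 0`), so `‖Y x‖ ≥ a` there; scale (`closure O` is stable under
`c ≠ 0`).  `lin`: for fixed `j` and `i` the map `ℂ^(m-1) → ℂ^m`, `(s, t) ↦ Y (b_i s) - t e_j`, has a null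
range (`StHNI`; `(m - 2) + 1 < m`), and `y` outside the countable union of these ranges is as required. -/
def StHED : Prop := ∀ D : OD, GoodO D → ∃ Y : D.LM, PJ D Y

/-- MODULE HAL (algebraic relations).
PROOF.  (1) Suppose `aeval ψ P = 0`, `P ≠ 0` of minimal total degree.  `P` is not constant.  Differentiate:
`∑ i, aeval ψ (∂_i P) * ∂_j ψ_i = 0` for all `j`; the Jacobian matrix has nonzero determinant, so
`aeval ψ (∂_i P) = 0` for all `i`; by minimality `∂_i P = 0` for all `i`, so `P` is constant,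
contradiction.  (2) So `ψ` is algebraically independent, a transcendence basis of the fraction field
`K` of `MvPolynomial (Fin m) ℂ` (transcendence degree `m`; Mathlib: `MvPolynomial.trdeg...`,
`AlgebraicIndependent`, `IsTranscendenceBasis` by cardinality), so `A / B` is algebraic over the subfield
generated by `ψ`: there is a nonzero polynomial relation `∑ c_i(ψ) (A/B)^i = 0`, coefficients in
`ℂ[y]` after clearing denominators; divide by a power of `A/B ≠ 0` to get `c_0 ≠ 0`; multiply by `B^r`. -/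
def StHAL : Prop := ∀ (m : ℕ) (ψ : Fin m → MvPolynomial (Fin m) ℂ), jac ψ ≠ 0 →
  (∀ P : MvPolynomial (Fin m) ℂ, P ≠ 0 → MvPolynomial.aeval ψ P ≠ 0) ∧
  ∀ A B : MvPolynomial (Fin m) ℂ, A ≠ 0 → B ≠ 0 →
    ∃ (r : ℕ) (c : ℕ → MvPolynomial (Fin m) ℂ), c 0 ≠ 0 ∧
      ∑ i ∈ Finset.range (r + 1), MvPolynomial.aeval ψ (c i) * A ^ i * B ^ (r - i) = 0

/-- MODULE HOC (basic properties of holomorphic functions on `O`).
PROOF.  Continuity at `x ∈ O`: `F ∘ c` is differentiable, so continuous at `0`, for a chart `c` at `x`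
(`HolO` with `Ω = univ`); points `x'` of `O` near `x` are `c s` with `s` small (`Cht.cov`).  The rest is
immediate from the definition. -/
def StHOC : Prop := ∀ D : OD, GoodO D →
  (∀ F, HolO D.O F → ContinuousOn F D.O) ∧
  (∀ P : MvPolynomial (Fin D.N) ℂ, HolO D.O (fun x => MvPolynomial.eval x P)) ∧
  (∀ L : (Fin D.N → ℂ) →ₗ[ℂ] ℂ, HolO D.O (fun x => L x) ∧ HomO D.O 1 (fun x => L x)) ∧
  (∀ F F', HolO D.O F → HolO D.O F' →
    HolO D.O (fun x => F x + F' x) ∧ HolO D.O (fun x => F x * F' x)) ∧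
  (∀ k k' F F', HomO D.O k F → HomO D.O k' F' → HomO D.O (k + k') (fun x => F x * F' x)) ∧
  (∀ F, HolO D.O F → ∀ j : ℕ, HolO D.O (fun x => F x ^ j)) ∧
  (∀ k F, HomO D.O k F → ∀ j : ℕ, HomO D.O (k * j) (fun x => F x ^ j)) ∧
  (∀ F, HolO D.O F → DifferentiableOn ℂ (fun z => F (D.ph z)) D.U) ∧
  ∀ F k, HolO D.O F → HomO D.O k F → ∀ A : (Fin D.N → ℂ) ≃ₗ[ℂ] (Fin D.N → ℂ),
    (∀ z, A z ∈ D.O ↔ z ∈ D.O) → HolO D.O (fun x => F (A x)) ∧ HomO D.O k (fun x => F (A x))

/-- MODULE HDN (density).  Input: `StHAL`.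
PROOF.  `ev (yp Y i) z = Y (ph z) i` (linearity), `jac (yp Y) ≠ 0` by `PJ.rk` (the derivative of
`z ↦ Y (ph z)` at `z` is injective, so its matrix has nonzero determinant).  `P = aeval (yp Y) Dc' ≠ 0`
(`StHAL`), `ev P z = ev Dc' (Y (ph z))`.  `{z : ev (Δ * P) z ≠ 0}` is dense in `ℂ^m` (complement of the zero
set of a nonzero polynomial: e.g. it has full measure, `StNUL`, or restrict to lines), and `ph` is
continuous, so every `ph z`, `z ∈ U`, is in the closure; `GoodO.dense`. -/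
def StHDN : Prop := ∀ D : OD, GoodO D → ∀ Y : D.LM, PJ D Y →
  (∀ i z, ev (D.yp Y i) z = Y (D.ph z) i) ∧ jac (D.yp Y) ≠ 0 ∧
  ∀ Dc' : MvPolynomial (Fin D.m) ℂ, Dc' ≠ 0 → D.O ⊆ closure {x | x ∈ D.O ∧ ev Dc' (Y x) ≠ 0}

/-- MODULE HDS (the discriminant hypersurface).  Inputs: `StHAL`, `StHOC`, `StHDN`.
PROOF.  (1) Boundary.  Fix `z₁ ∈ U`; by `Qb` some `Q i₀ (ph z₁) ≠ 0`; `q = bind₁ Φ (Q i₀)` is a nonzero
polynomial in `z`.  `StHAL` (`A = q`, `B = 1`): `∑ c_i (Y x) (Q i₀ x)^i = 0` for `x = ph z`, for all `z`; by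
continuity for all `x` in the closure of `ph '' U`, so in `closure O`.  If `x ∈ closure O`, `x ∉ O` then
`Q i₀ x = 0` (`Qb`), so `c_0 (Y x) = 0`.
(2) Ramification.  `S` from `ram`, `A = jac (yp Y) ≠ 0`, `B = J ≠ 0` (`J0`, `U` nonempty).  `StHAL`, divide by
`J^r`: `∑ c'_i (Y x) (S x)^i = 0` for `x = ph z`, `z ∈ U`; both sides are continuous on `O` (`StHOC`), so it
holds on `O` (`dense`).  If `S x = 0` then `c'_0 (Y x) = 0`.  Take `Dc = c_0 * c'_0`. -/
def StHDS : Prop := ∀ D : OD, GoodO D → ∀ Y : D.LM, PJ D Y →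
  ∃ Dc : MvPolynomial (Fin D.m) ℂ, Dc ≠ 0 ∧ ∀ x ∈ closure D.O, ev Dc (Y x) ≠ 0 →
    x ∈ D.O ∧ ∀ c, D.Cht x c → Function.Injective (fun ξ => Y (fderiv ℂ c 0 ξ))

/-- MODULE HCN (complements of complex hypersurfaces are connected).
PROOF.  Let `y, y'` be in the set.  The polynomial `t ↦ P (y + t (y' - y))` is not zero (value at `0`), so it
has finitely many zeros; the complement of a finite (countable) set in `ℂ` is path connected
(`Set.Countable.isPathConnected_compl_of_one_lt_rank`); join `0` and `1` there. -/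
def StHCN : Prop := ∀ (m : ℕ) (P : MvPolynomial (Fin m) ℂ), P ≠ 0 →
  IsPreconnected {y : Fin m → ℂ | ev P y ≠ 0}

/-- MODULE HFI (the covering).  Inputs: `StHCN`, `StHDN`.
PROOF.  Let `ev Dc y₀ ≠ 0`.  (i) For `x ∈ fb y₀` (so `x ∈ O`) take a chart `c` at `x`; `κ = Y ∘ c` has
invertible derivative at `0`; inverse function theorem over `ℂ` (`HasStrictFDerivAt.to_localInverse`,
`ContDiffAt.toOpenPartialHomeomorph`; the local inverse is differentiable near `y₀`): there are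
`ρ_x, ε_x > 0` and `g` holomorphic on `ball y₀ ρ_x` with `κ (g y) = y`, `g y₀ = 0`, and `s = g (κ s)` if
`‖s‖ < ε_x` and `κ s ∈ ball y₀ ρ_x`.  With `δ_x` from `Cht.cov` for `ε_x`: (*) if `x' ∈ O`, `‖x' - x‖ < δ_x`,
`Y x' = y ∈ ball y₀ ρ_x` then `x' = ζ_x y := c (g y)`; and `ζ_x y ∈ O`, `Y (ζ_x y) = y`, `ζ_x y₀ = x`.
(ii) `fb y₀` is finite: it is bounded (`PJ.bd`); an infinite bounded set has an accumulation point
`x* ∈ closure O`, `Y x* = y₀`, so `x* ∈ O` by hypothesis, and (*) at `x*` is contradicted.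
(iii) For some `ρ > 0`, all `y ∈ ball y₀ ρ` satisfy: `ev Dc y ≠ 0`, `fb y = {ζ_x y : x ∈ fb y₀}`, and
`x ↦ ζ_x y` is injective on `fb y₀`.  Injectivity: continuity at `y₀`.  `⊆`: otherwise there are `y_i → y₀` and
`x_i ∈ fb y_i` not of this form; bounded, so a subsequence converges to `x* ∈ closure O`, `Y x* = y₀`,
`x* ∈ fb y₀`, and (*) at `x*` is contradicted.
(iv) So `ncard (fb y)` is locally constant on `{Dc ≠ 0}`, hence constant (`StHCN`), `= rd`; `rd > 0`:
`O` is nonempty (`phO`) and `StHDN` gives `x ∈ O` with `ev Dc (Y x) ≠ 0`.  Number the points of `fb y₀`. -/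
def StHFI : Prop := ∀ D : OD, GoodO D → ∀ (Y : D.LM) (Dc : MvPolynomial (Fin D.m) ℂ), PJ D Y →
  Dc ≠ 0 → (∀ x ∈ closure D.O, ev Dc (Y x) ≠ 0 →
    x ∈ D.O ∧ ∀ c, D.Cht x c → Function.Injective (fun ξ => Y (fderiv ℂ c 0 ξ))) →
  ∃ rd : ℕ, FB D Y Dc rd

/-- MODULE HCO (symmetric functions over the fibre).
PROOF.  By `FB.loc`, near `y₀` the polynomial `∏ᶠ x ∈ fb y, (X - C (F x))` is
`∏ i : Fin rd, (X - C (F (ζ i y)))` (injectivity), and `y ↦ F (ζ i y)` is holomorphic (`HolO`).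
Coefficients of a product of linear factors are polynomials in the `F (ζ i y)` (`Multiset.prod_X_sub_C_coeff`
or induction).  The other statements are properties of `∏ (X - C a_i)`, `rd` factors.  Homogeneity:
`fb (c • y) = c • fb y` (`GoodO.cone`, linearity). -/
def StHCO : Prop := ∀ D : OD, GoodO D → ∀ (Y : D.LM) (Dc : MvPolynomial (Fin D.m) ℂ) (rd : ℕ),
  FB D Y Dc rd → ∀ F, HolO D.O F →
  (∀ i, DifferentiableOn ℂ (D.co Y F i) {y | ev Dc y ≠ 0}) ∧
  (∀ y, ev Dc y ≠ 0 → (D.fb Y y).Finite ∧ (D.fb Y y).ncard = rd ∧ D.co Y F rd y = 1 ∧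
    D.tc Y F y = - D.co Y F (rd - 1) y ∧
    (∀ x ∈ D.fb Y y, ∑ i ∈ Finset.range (rd + 1), D.co Y F i y * F x ^ i = 0) ∧
    ∀ B : ℝ, (∀ x ∈ D.fb Y y, ‖F x‖ ≤ B) → ∀ i ≤ rd, ‖D.co Y F i y‖ ≤ 2 ^ rd * B ^ (rd - i)) ∧
  ∀ k, HomO D.O k F → ∀ y, ev Dc y ≠ 0 → ∀ c : ℂ, c ≠ 0 → ∀ i ≤ rd,
    D.co Y F i (c • y) = c ^ (k * (rd - i)) * D.co Y F i y

/-- MODULE HBL (local boundedness).  Input: `StHOC`.
PROOF.  Otherwise there are `x_i ∈ O` with `Y x_i → y₀` and `‖F x_i‖ → ∞`.  `‖x_i‖ ≤ ‖Y x_i‖ / a` is bounded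
(`PJ.bd`), so a subsequence converges to `x ∈ closure O` with `Y x = y₀`; by hypothesis `x ∈ O`, and `F` is
continuous at `x` on `O` (`StHOC`): contradiction. -/
def StHBL : Prop := ∀ D : OD, GoodO D → ∀ Y : D.LM, PJ D Y → ∀ F, HolO D.O F →
  ∀ y₀, (∀ x ∈ closure D.O, x ∉ D.O → Y x ≠ y₀) →
  ∃ δ : ℝ, 0 < δ ∧ ∃ B : ℝ, ∀ x ∈ D.O, ‖Y x - y₀‖ < δ → ‖F x‖ ≤ B

/-- MODULE HEN (functions of polynomial growth with removable singularities are polynomials).
PROOF.  Remove the singularities one after the other (Riemann: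
`Complex.differentiableOn_update_limUnder_of_bddAbove`, induction on the finite set `Z`): an entire
function `g = f` off `Z`.  `‖g t‖ ≤ B ‖t‖^n` for large `‖t‖` (by continuity also at the points of `Z`), so the
Cauchy estimates give `iteratedDeriv k g 0 = 0` for `k > n`, and `g` is its Taylor polynomial. -/
def StHEN : Prop := ∀ (Z : Set ℂ) (f : ℂ → ℂ) (n : ℕ), Z.Finite → DifferentiableOn ℂ f Zᶜ →
  (∀ t ∈ Z, ∃ δ : ℝ, 0 < δ ∧ ∃ B : ℝ, ∀ s, ‖s - t‖ < δ → s ∉ Z → ‖f s‖ ≤ B) →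
  (∃ T B : ℝ, ∀ t, T ≤ ‖t‖ → t ∉ Z → ‖f t‖ ≤ B * ‖t‖ ^ n) →
  ∃ P : Polynomial ℂ, P.natDegree ≤ n ∧ ∀ t, t ∉ Z → f t = P.eval t

/-- MODULE HLN (along almost all lines the coefficients are polynomials).
Inputs: `StHCO`, `StHBL`, `StHEN`, `StNUL` (of helper52, `StW.lean`), `StHCO`.
PROOF.  For almost every `y`: `ev Dc y ≠ 0` (`StNUL`) and the line `L t = y + t e_j` avoids the image of the
boundary (`PJ.lin`).  `Z = {t : ev Dc (L t) = 0}` is finite (nonzero polynomial in `t`).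
`f t = co i (L t)` is holomorphic off `Z` (`StHCO`).  Near `t₀ ∈ Z`: `StHBL` at `L t₀` and the bound of `StHCO`.
Growth: `StHBL` at `e_j` (`PJ.dir`): `‖F x‖ ≤ B` if `x ∈ O`, `‖Y x - e_j‖ < δ`.  If `‖t‖` is large then for
`x ∈ fb (L t)`: `‖Y (t⁻¹ x) - e_j‖ = ‖y / t‖ < δ`, so `‖F x‖ = ‖t‖^k ‖F (t⁻¹ x)‖ ≤ B ‖t‖^k`, and
`‖f t‖ ≤ 2^rd (B ‖t‖^k)^(rd - i)`.  `StHEN`: `f = P` off `Z`.  Finally `Function.update y j t = L (t - y j)`
(translate the polynomial), and finite sets are null sets. -/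
def StHLN : Prop := ∀ D : OD, GoodO D → ∀ (Y : D.LM) (Dc : MvPolynomial (Fin D.m) ℂ) (rd : ℕ),
  FB D Y Dc rd → ∀ k F, HolO D.O F → HomO D.O k F → ∀ i ≤ rd, ∀ j,
  ∀ᵐ y : Fin D.m → ℂ, ∃ P : Polynomial ℂ, P.natDegree ≤ k * (rd - i) ∧
    ∀ᵐ t : ℂ, D.co Y F i (Function.update y j t) = P.eval t

/-- MODULE HSE (functions which are polynomials along almost all coordinate lines are polynomials).
PROOF.  We may replace `f` by a measurable function equal to it almost everywhere (Fubini: the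
hypothesis is preserved).  Induction on `m`; `m = 0`: a constant.  `m + 1`: write `y = (t, y')`
(`t` the coordinate `0`; `MeasurableEquiv.piFinSuccAbove`, measure preserving:
`volume_preserving_piFinSuccAbove`).  For almost every `y'`, `f (·, y')` is almost everywhere equal to a
polynomial of degree `≤ d`.  Hence for almost every `(t, t_0, ..., t_d, y')` (Fubini, the set is measurable)
`t_i` are distinct and `f (t, y') = ∑ i, L_i(t) f (t_i, y')`, `L_i` the Lagrange basis of the nodes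
`t_0, ..., t_d`.  So we can fix distinct nodes `t_0, ..., t_d` such that this holds for almost every
`(t, y')` and such that each `f (t_i, ·)` satisfies the hypotheses of the induction
(`Measure.ae_ae_of_ae_prod`: for almost every `c` the function `f (c, ·)` does).  So
`f (t, y') = ∑ L_i(t) P_i(y')` almost everywhere. -/
def StHSE : Prop := ∀ (m d : ℕ) (f : (Fin m → ℂ) → ℂ), AEStronglyMeasurable f volume →
  (∀ j, ∀ᵐ y : Fin m → ℂ, ∃ P : Polynomial ℂ, P.natDegree ≤ d ∧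
    ∀ᵐ t : ℂ, f (Function.update y j t) = P.eval t) →
  ∃ P : MvPolynomial (Fin m) ℂ, ∀ᵐ y, f y = ev P y

/-- MODULE HPL (the coefficients are polynomials).
Inputs: `StHCO`, `StHLN`, `StHSE`, `StNUL`.
PROOF.  `co i` is continuous on the open set `{Dc ≠ 0}` of full measure, so almost everywhere strongly
measurable; `StHLN` and `StHSE` (`d = k * (rd - i)`): `co i = ev P` almost everywhere, so everywhere on
`{Dc ≠ 0}` (both sides are continuous there, and a full measure set is dense).  Homogeneity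
(`StHCO`): `ev P (c • y) = c^e ev P y` if `c ≠ 0`, `ev Dc y ≠ 0`, `ev Dc (c • y) ≠ 0`: for fixed such `y` for
all but finitely many `c`; hence for all `c`, `y` (polynomial identity, density), so `P` is homogeneous
(compare homogeneous components: `ev P (c • y) = ∑ c^n ev P_n y`). -/
def StHPL : Prop := ∀ D : OD, GoodO D → ∀ (Y : D.LM) (Dc : MvPolynomial (Fin D.m) ℂ) (rd : ℕ),
  FB D Y Dc rd → ∀ k F, HolO D.O F → HomO D.O k F → ∀ i ≤ rd,
  ∃ P : MvPolynomial (Fin D.m) ℂ, P.IsHomogeneous (k * (rd - i)) ∧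
    ∀ y, ev Dc y ≠ 0 → D.co Y F i y = ev P y

/-- existence of a covering -/
def StHFX : Prop := ∀ D : OD, GoodO D → ∃ (Y : D.LM) (Dc : MvPolynomial (Fin D.m) ℂ) (rd : ℕ),
  FB D Y Dc rd

/-- MODULE HBD (bound).  Inputs: `StHFX`, `StHPL`, `StHCO`, `StHOC`.
PROOF.  For `x ∈ O` with `ev Dc (Y x) ≠ 0`, `F x` is a root of `T^rd + ∑_{i < rd} P_i (Y x) T^i`, and
`|P_i (y)| ≤ C ‖y‖^(k (rd - i))` (homogeneous).  With `y = Y x ≠ 0` (as `x ≠ 0`), `τ = F x / ‖y‖^k`:
`|τ|^rd ≤ C ∑_{i<rd} |τ|^i`, so `|τ| ≤ 1 + C rd`.  So `‖F x‖ ≤ (1 + C rd) ‖Y x‖^k ≤ B ‖x‖^k`; for all `x ∈ O` by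
density (`FB.dns`) and continuity of `F` on `O` (`StHOC`). -/
def StHBD : Prop := ∀ D : OD, GoodO D → ∀ k F, HolO D.O F → HomO D.O k F →
  ∃ B : ℝ, ∀ x ∈ D.O, ‖F x‖ ≤ B * ‖x‖ ^ k

/-- MODULE HCS (functions of degree zero are constant).  Inputs: `StHFX`, `StHPL`, `StHCO`, `StHOC`.
PROOF.  The polynomials `P_i` are homogeneous of degree `0`, so constants: `F x` is a root of one
polynomial `a(T) = T^rd + ...` for all `x ∈ O` with `ev Dc (Y x) ≠ 0`, so for all `x ∈ O` (`FB.dns`,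
continuity).  Fix `x₀ ∈ O`, `c = F x₀`: the other roots of `a` are at distance `≥ η > 0` from `c`, so
`F = c` near `x₀` in `O` (continuity), and `GoodO.idp` gives `F = c` on `O`. -/
def StHCS : Prop := ∀ D : OD, GoodO D → ∀ F, HolO D.O F → HomO D.O 0 F →
  ∃ c : ℂ, ∀ x ∈ D.O, F x = c

/-- MODULE HPO (pull-backs to the chart are polynomials).
Inputs: `StHBD`, `StHEN`, `StHSE`, `StHOC`, `StNUL`.
PROOF.  `f z = F (ph z)` is holomorphic on `U` (`StHOC`), `|f z| ≤ B ‖ph z‖^k`, and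
`‖ph z‖ ≤ C (1 + ‖z‖)^e`.  For almost every `z` and every `j`: `ev Δ z ≠ 0`, so
`Z = {t : ev Δ (z + t e_j) = 0}` is finite, `t ↦ f (z + t e_j)` is holomorphic off `Z`, locally bounded
everywhere, with growth `≤ C' ‖t‖^(k e)`.  `StHEN`, then `StHSE` (`d = k e`; `f` is measurable: continuous
on the open set `U` of full measure): `f = ev P` almost everywhere, so on `U` by continuity. -/
def StHPO : Prop := ∀ D : OD, GoodO D → ∀ k F, HolO D.O F → HomO D.O k F →
  ∃ P : MvPolynomial (Fin D.m) ℂ, ∀ z ∈ D.U, F (D.ph z) = ev P z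

/-- a separating linear form `l`, with the polynomials `T j` giving the traces of `l ^ j` -/
structure SL (D : OD) (Y : D.LM) (Dc : MvPolynomial (Fin D.m) ℂ) (rd : ℕ)
    (l : (Fin D.N → ℂ) →ₗ[ℂ] ℂ) (T : ℕ → MvPolynomial (Fin D.m) ℂ) : Prop where
  hom : ∀ j, (T j).IsHomogeneous j
  tr : ∀ j y, ev Dc y ≠ 0 → D.tc Y (fun x => l x ^ j) y = ev (T j) y
  det : (Matrix.of fun i j : Fin rd => T (i + j)).det ≠ 0
  sep : ∀ y, ev Dc y ≠ 0 → ev (Matrix.of fun i j : Fin rd => T (i + j)).det y ≠ 0 →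
    Set.InjOn l (D.fb Y y)

/-- MODULE HSP (separating linear form; traces).  Inputs: `StHPL`, `StHCO`, `StHOC`.
PROOF.  Second part (traces are homogeneous polynomials): `StHPL` with `i = rd - 1` and `StHCO`
(`tc = - co (rd - 1)`).  First part: fix `y₁` with `ev Dc y₁ ≠ 0`; `fb y₁` has `rd` points; choose `l` with
distinct values on them (a finite union of proper subspaces is not everything, or `l` generic).
`T j` from the second part for `F = l ^ j`, of degree `j`.  For `ev Dc y ≠ 0`, with the points `x_0, ...` of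
`fb y`: `ev (T (i + j)) y = ∑ a, l (x_a)^i l (x_a)^j`, so the matrix is `V Vᵀ`, `V` a Vandermonde matrix
(`Matrix.det_vandermonde`), with determinant `(∏_{a<b} (l x_b - l x_a))²`: nonzero iff `l` is injective on
`fb y`. -/
def StHSP : Prop := ∀ D : OD, GoodO D → ∀ (Y : D.LM) (Dc : MvPolynomial (Fin D.m) ℂ) (rd : ℕ),
  FB D Y Dc rd → (∃ l T, SL D Y Dc rd l T) ∧ ∀ k F, HolO D.O F → HomO D.O k F →
    ∃ P : MvPolynomial (Fin D.m) ℂ, P.IsHomogeneous k ∧ ∀ y, ev Dc y ≠ 0 → D.tc Y F y = ev P y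

/-- MODULE HLG (interpolation).  Inputs: `StHSP`, `StHCO`, `StHOC`.
PROOF.  `M = (T (i + j))_{i,j}`, `G j` the polynomial of the trace of `F l ^ j` (`StHSP`),
`A = M.adjugate.mulVec G`.  Let `y` with `ev Dc y ≠ 0`, `ev M.det y ≠ 0`, `x_a` the points of `fb y`.  The
values `l x_a` are distinct, so there are `u_i` with `F x_a = ∑ i, u_i l (x_a)^i`
(Vandermonde); then `G j (y) = ∑_a F x_a l(x_a)^j = ∑ i, u_i T (i+j) (y)`, so
`det M (y) u = adjugate M (y) G (y) = A (y)`.  So the claim holds for `x` with `Y x = y`; such `x` are dense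
in `O` (`FB.dns` for `Dc * M.det`), and both sides are continuous on `O`. -/
def StHLG : Prop := ∀ D : OD, GoodO D → ∀ (Y : D.LM) (Dc : MvPolynomial (Fin D.m) ℂ) (rd : ℕ),
  FB D Y Dc rd → ∀ l T, SL D Y Dc rd l T → ∀ k F, HolO D.O F → HomO D.O k F →
  ∃ A : Fin rd → MvPolynomial (Fin D.m) ℂ, ∀ x ∈ D.O,
    ev (Matrix.of fun i j : Fin rd => T (i + j)).det (Y x) * F x =
      ∑ i : Fin rd, ev (A i) (Y x) * l x ^ (i : ℕ)

/-- MODULE HRG (holomorphic homogeneous functions are regular).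
Inputs: `StHFX`, `StHSP`, `StHLG`, `StHOC`.
PROOF.  Data of `StHFX`, `StHSP`; fix `x₁ ∈ O` with `ev M.det (Y x₁) ≠ 0` (`FB.dns`).  Let `x ∈ O`; `A` linear
with `A x₁ = x`, `A O = O` (`GoodO.tr`).  `StHLG` for `F ∘ A` (`StHOC`):
`ev M.det (Y y) F (A y) = ∑ ev (A_i) (Y y) l(y)^i` for `y ∈ O`.  Replace `y` by `A⁻¹ y`: `q y = ev M.det (Y (A⁻¹ y))`
and the right side are polynomials in `y`, `q x ≠ 0`. -/
def StHRG : Prop := ∀ D : OD, GoodO D → ∀ k F, HolO D.O F → HomO D.O k F → ∀ x ∈ D.O,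
  ∃ p q : MvPolynomial (Fin D.N) ℂ, MvPolynomial.eval x q ≠ 0 ∧
    ∀ y ∈ D.O, MvPolynomial.eval y q * F y = MvPolynomial.eval y p

/-- MODULE HHP (dimension of the space of homogeneous polynomials).
PROOF.  A basis: monomials of degree `k` in `m` variables, `(k + m - 1).choose (m - 1)` of them
(stars and bars: `Sym.card_sym_eq_choose`, `Finset.card_finsuppAntidiag`, or induction).  The limit:
`(k + j + m - 1).choose (m - 1) = ∏_{i=1}^{m-1} (k + j + i) / (m - 1)!`. -/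
def StHHP : Prop := ∀ m : ℕ, 0 < m →
  (∀ k, Module.Finite ℂ (MvPolynomial.homogeneousSubmodule (Fin m) ℂ k) ∧
    Module.finrank ℂ (MvPolynomial.homogeneousSubmodule (Fin m) ℂ k) =
      (k + m - 1).choose (m - 1)) ∧
  (∀ j : ℕ, Tendsto (fun k : ℕ => ((k + j + m - 1).choose (m - 1) : ℝ) / (k : ℝ) ^ (m - 1))
    atTop (𝓝 (1 / (m - 1).factorial))) ∧
  ∀ j : ℕ, Tendsto (fun k : ℕ => ((k - j + m - 1).choose (m - 1) : ℝ) / (k : ℝ) ^ (m - 1))
    atTop (𝓝 (1 / (m - 1).factorial))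

/-- MODULE HDM (dimension).  Inputs: `StHSP`, `StHHP`, `StHOC`, `StHCO`.
PROOF.  `l, T` from `StHSP`.  Upper bound: the map `HK k → Π j : Fin rd, homogeneousSubmodule (k + j)`,
`f ↦` the trace polynomials of `F l ^ j` (unique, because two polynomials which agree on `{Dc ≠ 0}` are
equal; so the map is linear; `tc` depends only on the values on `O`).  Injective: if all traces vanish then
on the fibres over `{Dc * det ≠ 0}`, `∑_a F x_a l(x_a)^j = 0` for `j < rd` and the Vandermonde matrix is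
invertible, so `F = 0` on a dense subset of `O`, so on `O` (`StHOC`).  Hence `HK k` is finite-dimensional and
`dim ≤ ∑_j (k + j + m - 1).choose (m - 1)`.  Lower bound for `k ≥ rd`: the map
`Π i : Fin rd, homogeneousSubmodule (k - i) → HK k`, `(P_i) ↦ (x ↦ ∑ ev P_i (Y x) l(x)^i)` is injective (for `y` with
`Dc * det ≠ 0` the polynomial `∑ P_i(y) T^i` of degree `< rd` has the `rd` distinct roots `l x_a`, so
`P_i (y) = 0`).  `StHHP` and squeeze. -/
def StHDM : Prop := ∀ D : OD, GoodO D → ∀ (Y : D.LM) (Dc : MvPolynomial (Fin D.m) ℂ) (rd : ℕ),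
  FB D Y Dc rd → (∀ k, FiniteDimensional ℂ (D.HK k)) ∧
    Tendsto (fun k : ℕ => (Module.finrank ℂ (D.HK k) : ℝ) / (k : ℝ) ^ (D.m - 1)) atTop
      (𝓝 ((rd : ℝ) / (D.m - 1).factorial))

end Pool.Agent.Helper20.KP
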