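import Pool.Agent.Helper20.KP.StH
import Pool.Agent.Helper52.KP.StF
import Pool.Agent.Helper52.KP.StB

/-!
# Project KP (MP_26be5b_ag), chapter H, bridge: from the chart `Ch x₀` of the orbit to `GoodO`, and
from the results of `StH.lean` to `StHDX` (helper52)

For every statement `StXX` prove `theorem hXX : StXX` in `Pool/Agent/<You>/KP/M_XX.lean`; statements
named in the docstring may be taken as hypotheses.  In a statement about all `g : Type u` keep the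
universe variable: `theorem hXX : StXX.{u}`.
`co : g → ℂ^N` (helper52) is the bijective linear coordinate map of the basis `Module.finBasis ℂ g`,
`N = finrank ℂ g`; `size x = ∑ i, ‖co x i‖`.
-/

set_option autoImplicit false

namespace Pool.Agent.Helper20.KP

open MeasureTheory Filter Pool.Agent.Helper52.KP Pool.Agent.Helper67.NO
open scoped Topology

universe u

section

variable {g : Type u} [LieRing g] [LieAlgebra ℂ g] [FiniteDimensional ℂ g]

/-- inverse of the coordinate map `co` -/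
noncomputable def ic (v : Fin (Module.finrank ℂ g) → ℂ) : g :=
  (Module.finBasis ℂ g).equivFun.symm v

variable (g) in
/-- the matrix of `ad x` with polynomial entries in the coordinates of `x` -/
noncomputable def admN : Matrix (Fin (Module.finrank ℂ g)) (Fin (Module.finrank ℂ g))
    (MvPolynomial (Fin (Module.finrank ℂ g)) ℂ) :=
  ∑ l, (MvPolynomial.X l : MvPolynomial (Fin (Module.finrank ℂ g)) ℂ) • (LinearMap.toMatrix (Module.finBasis ℂ g) (Module.finBasis ℂ g)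
    (LieAlgebra.ad ℂ g (Module.finBasis ℂ g l) : g →ₗ[ℂ] g)).map MvPolynomial.C

/-- a function on the orbit as a function on `ℂ^N` -/
noncomputable def tf {x₀ : g} (f : OO x₀ → ℂ) (v : Fin (Module.finrank ℂ g) → ℂ) : ℂ :=
  ext f (ic v)

/-- the orbit data of a chart -/
noncomputable def mkOD {x₀ : g} (C : Ch x₀) : OD where
  N := Module.finrank ℂ g
  m := C.m
  O := co '' {y | Orb x₀ y}
  Φ := C.pol
  Δ := C.Δ
  J := C.J
  nq := Fintype.card ((Fin C.m → Fin (Module.finrank ℂ g)) × (Fin C.m → Fin (Module.finrank ℂ g)))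
  Q := fun i => ((admN g).submatrix ((Fintype.equivFin _).symm i).1
    ((Fintype.equivFin _).symm i).2).det

end

/-- MODULE HB1 (elementary facts).  Input: `StORB`.
PROOF.  `co` is `(Module.finBasis ℂ g).equivFun`, so (i), (ii).  `Ch.pol_spec`: `ph z = co (Φ z)`.
The matrix `admN` evaluated at `co x` is the matrix of `ad x` (linearity); a determinant commutes with
the ring homomorphism `MvPolynomial.eval`; `mns` is the sum of the absolute values of the `mnr`.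
`Orb x₀ 0` is impossible (`StORB`: it would give `Orb 0 x₀`, but `Orb 0 y` implies `y = 0`).  Cone:
`StORB`, last part.  `C.imm` says that the images of the basis vectors under `fderiv ph z` are linearly
independent.  `2 ≤ m`: `C.hm`, `C.hn`. -/
def StHB1 : Prop := ∀ (g : Type u) [LieRing g] [LieAlgebra ℂ g] [FiniteDimensional ℂ g]
  [LieAlgebra.IsSemisimple ℂ g] (x₀ : g), x₀ ≠ 0 → IsNilpotent (LieAlgebra.ad ℂ g x₀) →
  ∀ (C : Ch x₀) (D : OD), D = mkOD C →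
  (∀ v : Fin (Module.finrank ℂ g) → ℂ, co (ic v : g) = v) ∧ (∀ x : g, ic (co x) = x) ∧
  (∀ z, (mkOD C).ph z = co (C.Φ z)) ∧
  (∀ x : g, (∃ i, MvPolynomial.eval (co x) ((mkOD C).Q i) ≠ 0) ↔ 0 < mns C.m x) ∧
  2 ≤ D.m ∧ (0 : Fin D.N → ℂ) ∉ D.O ∧ (∀ x ∈ D.O, ∀ c : ℂ, c ≠ 0 → c • x ∈ D.O) ∧ D.Δ ≠ 0 ∧
  (∀ z ∈ D.U, ev D.J z ≠ 0) ∧ (∀ z ∈ D.U, D.ph z ∈ D.O) ∧
  (∀ z ∈ D.U, Function.Injective (fderiv ℂ D.ph z))

/-- MODULE HB2 (charts).  Inputs: `StORB`, `StNEA`, `StHB1`.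
PROOF.  `x ∈ O`, `x = co x'`.  `rk x' = rk x₀ = C.m` (`StORB`, `C.hrk`), so there is a frame
`X : Fin C.m → g` (`StORB`).  For EVERY frame `X` the map `c w = co (chart x' X w)` is a chart: entire
(`StORB`), values in `O` (`Orb.step`), derivative at `0` is `v ↦ co ⁅∑ v j • X j, x'⁆`, injective because
the `⁅X j, x'⁆` are linearly independent.  `cov`: `W` of `StNEA` is continuous at `co x'` and
`W x' = W (chart x' X 0) = 0`; points `y` of the orbit near `x'` are nilpotent of rank `rk x'` and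
`y = chart x' X (W y)`. -/
def StHB2 : Prop := ∀ (g : Type u) [LieRing g] [LieAlgebra ℂ g] [FiniteDimensional ℂ g]
  [LieAlgebra.IsSemisimple ℂ g] (x₀ : g), x₀ ≠ 0 → IsNilpotent (LieAlgebra.ad ℂ g x₀) →
  ∀ C : Ch x₀, (∀ x, Orb x₀ x → ∃ X : Fin C.m → g, Frm x X) ∧
  ∀ x, Orb x₀ x → ∀ X : Fin C.m → g, Frm x X → (mkOD C).Cht (co x) (fun w => co (chart x X w))

/-- MODULE HB3 (boundary).  Inputs: `StBDY`, `StHB1`.
PROOF.  `StBDY` with `rk x₀ = C.m` (`C.hrk`): every `v ∈ closure O` is `co x` with `x = ic v`. -/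
def StHB3 : Prop := ∀ (g : Type u) [LieRing g] [LieAlgebra ℂ g] [FiniteDimensional ℂ g]
  [LieAlgebra.IsSemisimple ℂ g] (x₀ : g), x₀ ≠ 0 → IsNilpotent (LieAlgebra.ad ℂ g x₀) →
  ∀ (C : Ch x₀) (D : OD), D = mkOD C →
  (∃ b : ℕ → (Fin (D.m - 2) → ℂ) → (Fin D.N → ℂ), (∀ i, Differentiable ℂ (b i)) ∧
    closure D.O \ D.O ⊆ ⋃ i, Set.range (b i)) ∧
  (∀ x ∈ closure D.O, (x ∈ D.O ↔ ∃ i, MvPolynomial.eval x (D.Q i) ≠ 0))

/-- MODULE HB4 (density of the chart).  Inputs: `StCNX`, `StHB1`, `StHB2`.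
PROOF.  `p₁ ≠ 0` (`C.p1`, `U` is nonempty as `Δ ≠ 0`).  Let `x = co x' ∈ O`, `X` a frame, `V` a ball
around `0` in `ℂ^m` such that `co (chart x' X w)` is in a given neighbourhood of `x` for `w ∈ V`; `StCNX`
gives `w ∈ V` with `p₁ (chart x' X w) ≠ 0`, so `chart x' X w = Φ z`, `z ∈ U` (`C.p1`). -/
def StHB4 : Prop := ∀ (g : Type u) [LieRing g] [LieAlgebra ℂ g] [FiniteDimensional ℂ g]
  [LieAlgebra.IsSemisimple ℂ g] (x₀ : g), x₀ ≠ 0 → IsNilpotent (LieAlgebra.ad ℂ g x₀) →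
  ∀ C : Ch x₀, (mkOD C).O ⊆ closure ((mkOD C).ph '' (mkOD C).U)

/-- MODULE HB5 (transfer of functions).  Inputs: `StHLC`, `StORB`, `StHB1`.
PROOF.  `tf f (co x) = f x`.  `HolO` for `tf f`: let `γ : Ω → ℂ^N` be holomorphic with values in `O`;
`Ψ z = ic (γ z)` satisfies `HolMap Ω Ψ` and `Orb x₀ (Ψ z)`; `StHLC`.  Conversely, `w ↦ co (chart x X w)` is
entire with values in `O` (`StORB`), so `F` composed with it is entire. -/
def StHB5 : Prop := ∀ (g : Type u) [LieRing g] [LieAlgebra ℂ g] [FiniteDimensional ℂ g]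
  [LieAlgebra.IsSemisimple ℂ g] (x₀ : g), x₀ ≠ 0 → IsNilpotent (LieAlgebra.ad ℂ g x₀) →
  ∀ (C : Ch x₀) (k : ℕ),
  (∀ f ∈ Hol x₀ k, HolO (mkOD C).O (tf f) ∧ HomO (mkOD C).O k (tf f) ∧
    ∀ x : OO x₀, tf f (co x.1) = f x) ∧
  ∀ F, HolO (mkOD C).O F → HomO (mkOD C).O k F → (fun x : OO x₀ => F (co x.1)) ∈ Hol x₀ k

/-- MODULE HB6 (ramification).  Inputs: `StJCO`, `StTRN`, `StLFT`, `StORB`, `StHB1`, `StHB2`,
`StHB5`.
PROOF.  `f i x = Y (co x) i` is in `Hol x₀ 1` (`StORB`).  `StJCO` with `k i = 1` (`hdim x₀ ≤ m` by `C.hm`)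
gives `s`; `S = tf s` (`StHB5`).  On `U`, `ext (f i) (Φ z) = Y (co (Φ z)) i = ev (yp Y i) z`, and `dz j` of a
polynomial is its `pderiv j`: second condition.  Let `x = co x' ∈ O`, `S x ≠ 0`, `X` a frame at `x'`
(`StHB2`), `E w = chart x' X w`, and `ε, a, τ` from `StTRN`.  For `‖w‖ < ε` with `p₁ (E w) ≠ 0` (an open dense
set of `w`): `co (E w) = ph (τ w)`, also near `w`, so the derivative of `w ↦ Y (co (E w))` at `w` has determinant
`ev (jac (yp Y)) (τ w) * det (τ' w) = S (co (E w)) * ev J (τ w) * det (τ' w)`, of absolute value squared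
`≥ a ‖S (co (E w))‖²`.  By continuity (`w → 0` in the dense set) the determinant at `w = 0` is not zero, so
`ξ ↦ Y (fderiv (co ∘ E) 0 ξ)` is injective.  Let `c` be any chart at `x`.  `StLFT` for
`Ψ s = ic (c s)`: near `0`, `c s = co (E (ξ s))`, `ξ 0 = 0`, so `fderiv c 0 = fderiv (co ∘ E) 0 ∘ fderiv ξ 0`;
it is injective, so `fderiv ξ 0` is injective, and `Y ∘ fderiv c 0` is injective. -/
def StHB6 : Prop := ∀ (g : Type u) [LieRing g] [LieAlgebra ℂ g] [FiniteDimensional ℂ g]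
  [LieAlgebra.IsSemisimple ℂ g] (x₀ : g), x₀ ≠ 0 → IsNilpotent (LieAlgebra.ad ℂ g x₀) →
  ∀ (C : Ch x₀) (D : OD), D = mkOD C → ∀ Y : D.LM,
  ∃ S, HolO D.O S ∧ (∀ z ∈ D.U, S (D.ph z) * ev D.J z = ev (jac (D.yp Y)) z) ∧
    ∀ x ∈ D.O, S x ≠ 0 → ∀ c, D.Cht x c → Function.Injective (fun ξ => Y (fderiv ℂ c 0 ξ))

/-- MODULE HB7 (identity principle, homogeneity).  Inputs: `StCNX`, `StORB`, `StHB1`, `StHB2`,
`StHB5`.
PROOF.  First part: `f x = F (co x) - c` is in `Hol x₀ 0` (`StHB5`; constants are in `Hol x₀ 0`).  If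
`f ≠ 0` then `StCNX` at a point `x` of `V ∩ O` and the open set of the small `w` with
`co (chart x X w) ∈ V` gives a contradiction.  Second part: for `Orb x y` (induction on `Orb`) there is a
product `A` of maps `expAd` with `A x = y`; `expAd z` is invertible with inverse `expAd (-z)` and preserves the
orbit of `x₀` in both directions (`StORB`).  Points of `O` are `co x`, `co y` with `Orb x₀ x`, `Orb x₀ y`, so
`Orb x y`.  Conjugate by `co`. -/
def StHB7 : Prop := ∀ (g : Type u) [LieRing g] [LieAlgebra ℂ g] [FiniteDimensional ℂ g]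
  [LieAlgebra.IsSemisimple ℂ g] (x₀ : g), x₀ ≠ 0 → IsNilpotent (LieAlgebra.ad ℂ g x₀) →
  ∀ (C : Ch x₀) (D : OD), D = mkOD C →
  (∀ F, HolO D.O F → HomO D.O 0 F → ∀ c : ℂ, ∀ V : Set (Fin D.N → ℂ), IsOpen V →
    (V ∩ D.O).Nonempty → (∀ x ∈ V ∩ D.O, F x = c) → ∀ x ∈ D.O, F x = c) ∧
  (∀ x ∈ D.O, ∀ y ∈ D.O, ∃ A : (Fin D.N → ℂ) ≃ₗ[ℂ] (Fin D.N → ℂ), A x = y ∧
    ∀ z, A z ∈ D.O ↔ z ∈ D.O)

/-- the orbit is good -/
def StHGO : Prop := ∀ (g : Type u) [LieRing g] [LieAlgebra ℂ g] [FiniteDimensional ℂ g]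
  [LieAlgebra.IsSemisimple ℂ g] (x₀ : g), x₀ ≠ 0 → IsNilpotent (LieAlgebra.ad ℂ g x₀) →
  ∀ C : Ch x₀, GoodO (mkOD C)

/-- MODULE HB8 (`Hol = Reg`).  Inputs: `StHGO`, `StHRG`, `StHB1`, `StHB5`, `StORB`.
PROOF.  `⊆`: let `f ∈ Hol x₀ k`, `F = tf f` (`StHB5`), `StHRG` at `co x`: polynomials `p, q` with
`pev q x ≠ 0` and `pev q y * f y = pev p y` on the orbit (`pev p x = eval (co x) p` by definition).
`⊇`: let `f ∈ Reg x₀ k`, `x` in the orbit, `X : Fin j → g`, `w₀`; with `p, q` for the point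
`chart x X w₀`: near `w₀`, `f (chart x X w) = pev p (chart x X w) / pev q (chart x X w)`, a quotient of
holomorphic functions (`StORB`) with nonvanishing denominator. -/
def StHB8 : Prop := ∀ (g : Type u) [LieRing g] [LieAlgebra ℂ g] [FiniteDimensional ℂ g]
  [LieAlgebra.IsSemisimple ℂ g] (x₀ : g), x₀ ≠ 0 → IsNilpotent (LieAlgebra.ad ℂ g x₀) →
  Ch x₀ → ∀ k, Hol x₀ k = Reg x₀ k

/-- MODULE HB9 (final statement of chapter H).  Inputs: `StHGO`, `StHFX`, `StHBD`, `StHCS`,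
`StHCO`, `StHDM`, `StHB1`, `StHB5`, `StHB8`, `StNUL` (`StW.lean`).
PROOF.  `D = mkOD C`; `Y, Dc, rd` from `StHFX`; `y i = (x ↦ Y (co x) i)`, a linear form.  `bdd`: `StHBD` for
`tf f`, `‖co x‖ ≤ size x`.  `reg`: `StHB8`.  `fd`, `dim`: `StHDM` and the linear isomorphism
`Hol x₀ k ≃ D.HK k` induced by the bijection `OO x₀ ≃ D.O`, `x ↦ co x` (`StHB5`); `D.m = C.m`.  `cst`:
`StHCS`.  `rd0`: `FB.pos`.  `ybd`: `PJ.bd`, `size x ≤ N ‖co x‖`, `‖Y v‖ ≤ ∑ i, ‖Y v i‖`.  `card`: for `v` with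
`ev Dc v ≠ 0` (almost every `v`: `StNUL`), `{x | Orb x₀ x ∧ ∀ i, y i x = v i}` corresponds to `fb v` by `co`,
and `ncard (fb v) = rd` (`StHCO`). -/
def StHB9 : Prop := StHDX.{u}

end Pool.Agent.Helper20.KP
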